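import Mathlib
import Pool.Agent.V11182.LTransfer

/-!
# Supersaturation of comparable pairs in `L(k,k)`

There are constants `c₁, c₂ > 0` such that for all large `k`, every `U ⊆ L(k,k)` with
`|U| ≥ c₁ k^{-3/2} C(2k,k)` spans at least `c₂ k² |U|` comparable pairs.
-/

namespace Pool.Agent.Results.MP_75c11f_co.Supersaturation

open Finset Pool.Agent.V11182.LFlow Pool.Agent.V11182.LTransfer

/-- `L(k,k)`: sequences `0 ≤ x₁ ≤ ⋯ ≤ x_k ≤ k`, ordered componentwise. -/
abbrev L (k : ℕ) : Type := Fin k →o Fin (k + 1)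

/-- The comparability graph of `L(k,k)`. -/
def comparabilityGraph (k : ℕ) : SimpleGraph (L k) where
  Adj x y := x ≠ y ∧ (x ≤ y ∨ y ≤ x)
  symm := ⟨fun _ _ h => ⟨h.1.symm, h.2.symm⟩⟩
  loopless := ⟨fun _ h => h.1 rfl⟩

/-- The number of edges of the comparability graph of `L(k,k)` with both ends in `U`. -/
noncomputable def edgesIn (k : ℕ) (U : Finset (L k)) : ℕ :=
  Set.ncard {e : Sym2 (L k) | e ∈ (comparabilityGraph k).edgeSet ∧ ∀ v ∈ e, v ∈ U}

lemma phi_injective (k : ℕ) : Function.Injective (fun x : L k => phi k x) := by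
  intro x y h
  exact OrderHom.ext _ _ (phi_inj x.monotone y.monotone h)

lemma pairs_le_edges (k : ℕ) (U : Finset (L k)) :
    ∑ A ∈ U.image (fun x : L k => phi k x), (deg (U.image (fun x : L k => phi k x)) A : ℝ) ≤
      edgesIn k U := by
  classical
  rw [sum_image (fun x _ y _ h => phi_injective k h)]
  have h1 : ∀ x ∈ U, (deg (U.image (fun x : L k => phi k x)) (phi k x) : ℝ) ≤
      ((U.filter (fun y => x < y)).card : ℝ) := by
    intro x _
    have : deg (U.image (fun x : L k => phi k x)) (phi k x) ≤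
        (U.filter (fun y => x < y)).card := by
      unfold deg
      rw [filter_image, card_image_of_injective _ (phi_injective k)]
      apply card_le_card
      intro y hy
      rw [mem_filter] at hy ⊢
      refine ⟨hy.1, ?_⟩
      have hle : x ≤ y := le_of_le_phi x.monotone y.monotone hy.2.1
      refine lt_of_le_of_ne hle ?_
      rintro rfl
      exact hy.2.2 rfl
    exact_mod_cast this
  refine (sum_le_sum h1).trans ?_
  have h2 : ∑ x ∈ U, (U.filter (fun y => x < y)).card =
      ((U ×ˢ U).filter (fun p => p.1 < p.2)).card := by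
    rw [card_filter, sum_product]
    apply sum_congr rfl
    intro x _
    rw [card_filter]
  have h3 : ((U ×ˢ U).filter (fun p => p.1 < p.2)).card ≤ edgesIn k U := by
    unfold edgesIn
    rw [← Set.ncard_coe_finset]
    have hfin : Set.Finite {e : Sym2 (L k) | e ∈ (comparabilityGraph k).edgeSet ∧
        ∀ v ∈ e, v ∈ U} := by
      have : Finite (L k) := Finite.of_injective (fun x : L k => (x : Fin k → Fin (k + 1)))
        (fun x y h => OrderHom.ext _ _ h)
      exact Set.toFinite _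
    apply Set.ncard_le_ncard_of_injOn (fun p => s(p.1, p.2)) _ _ hfin
    · intro p hp
      rw [mem_coe, mem_filter, mem_product] at hp
      refine ⟨?_, ?_⟩
      · rw [SimpleGraph.mem_edgeSet]
        exact ⟨hp.2.ne, Or.inl hp.2.le⟩
      · intro v hv
        rw [Sym2.mem_iff] at hv
        rcases hv with rfl | rfl
        · exact hp.1.1
        · exact hp.1.2
    · intro p hp q hq h
      rw [mem_coe, mem_filter] at hp hq
      simp only [Sym2.eq, Sym2.rel_iff', Prod.mk.injEq, Prod.swap_prod_mk] at h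
      rcases h with h | h
      · exact Prod.ext h.1 h.2
      · exfalso
        have h4 : p.1 = q.2 := h.1
        have h5 : p.2 = q.1 := h.2
        have h6 := hp.2
        rw [h4, h5] at h6
        exact lt_asymm h6 hq.2
  calc ∑ x ∈ U, ((U.filter (fun y => x < y)).card : ℝ)
      = ((∑ x ∈ U, (U.filter (fun y => x < y)).card : ℕ) : ℝ) := by push_cast; rfl
    _ ≤ edgesIn k U := by
        rw [h2]
        exact_mod_cast h3

/-- **Supersaturation in `L(k,k)`.** -/
theorem result : ∃ c₁ : ℝ, 0 < c₁ ∧ ∃ c₂ : ℝ, 0 < c₂ ∧ ∃ k₀ : ℕ, ∀ k ≥ k₀,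
    ∀ U : Finset (L k), c₁ * (k : ℝ) ^ (-(3 : ℝ) / 2) * ((2 * k).choose k : ℝ) ≤ U.card →
      c₂ * (k : ℝ) ^ 2 * U.card ≤ edgesIn k U := by
  obtain ⟨k₀, hk₀⟩ := supersat
  refine ⟨2 ^ 15, by norm_num, 1 / 2 ^ 34, by norm_num, max k₀ 1, ?_⟩
  intro k hk U hU
  have hk1 : k₀ ≤ k := le_trans (le_max_left _ _) hk
  have hk2 : 1 ≤ k := le_trans (le_max_right _ _) hk
  have hkpos : (0 : ℝ) < k := by exact_mod_cast hk2
  have hcard : (U.image (fun x : L k => phi k x)).card = U.card :=
    card_image_of_injective _ (phi_injective k)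
  have hsub : U.image (fun x : L k => phi k x) ⊆ Om k := by
    intro A hA
    rw [mem_image] at hA
    obtain ⟨x, _, rfl⟩ := hA
    exact phi_mem x.monotone
  have hκ : Real.sqrt ((k : ℝ) ^ 3) = (k : ℝ) ^ ((3 : ℝ) / 2) := by
    rw [Real.sqrt_eq_rpow, ← Real.rpow_natCast, ← Real.rpow_mul hkpos.le]
    norm_num
  have hprod : Real.sqrt ((k : ℝ) ^ 3) * (k : ℝ) ^ (-(3 : ℝ) / 2) = 1 := by
    rw [hκ, ← Real.rpow_add hkpos]
    norm_num
  have hsize : (2 : ℝ) ^ 15 * (Om k).card ≤
      Real.sqrt ((k : ℝ) ^ 3) * (U.image (fun x : L k => phi k x)).card := by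
    rw [hcard, card_Om]
    calc (2 : ℝ) ^ 15 * ((2 * k).choose k : ℝ)
        = Real.sqrt ((k : ℝ) ^ 3) * (2 ^ 15 * (k : ℝ) ^ (-(3 : ℝ) / 2) *
            ((2 * k).choose k : ℝ)) := by
          have : Real.sqrt ((k : ℝ) ^ 3) * (2 ^ 15 * (k : ℝ) ^ (-(3 : ℝ) / 2) *
            ((2 * k).choose k : ℝ)) = (Real.sqrt ((k : ℝ) ^ 3) * (k : ℝ) ^ (-(3 : ℝ) / 2)) *
              (2 ^ 15 * ((2 * k).choose k : ℝ)) := by ring
          rw [this, hprod, one_mul]
      _ ≤ Real.sqrt ((k : ℝ) ^ 3) * U.card := by gcongr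
  have hmain := hk₀ k hk1 _ hsub hsize
  rw [hcard] at hmain
  have hedge := pairs_le_edges k U
  calc 1 / 2 ^ 34 * (k : ℝ) ^ 2 * U.card = (k : ℝ) ^ 2 * U.card / 2 ^ 34 := by ring
    _ ≤ (2 ^ 34 * ∑ A ∈ U.image (fun x : L k => phi k x),
          (deg (U.image (fun x : L k => phi k x)) A : ℝ)) / 2 ^ 34 := by gcongr
    _ = ∑ A ∈ U.image (fun x : L k => phi k x),
          (deg (U.image (fun x : L k => phi k x)) A : ℝ) := by
        rw [mul_comm, mul_div_assoc, div_self (by norm_num), mul_one]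
    _ ≤ edgesIn k U := hedge

end Pool.Agent.Results.MP_75c11f_co.Supersaturation
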